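import Pool.Agent.K3h47.IM.Main

/-!
The multiplicities, for any number of hypersurfaces.
-/

set_option autoImplicit false
set_option linter.overlappingInstances false
set_option linter.unusedSectionVars false
set_option maxHeartbeats 400000

open FF MvPolynomial Pool.Agent.W603.LV Pool.Agent.W602.GT Pool.Agent.W602.Cov
open Pool.Agent.W602.Cov.G Pool.Agent.TH152.AC Pool.Agent.TH122.AB Pool.Agent.Y169.CH
open Pool.Agent.W619.PQ (IsUniruled)
open Pool.Agent.K3h47.NC Pool.Agent.R882.Over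

namespace Pool.Agent.K3h47.IM

section dat

variable {n q : ℕ} {L : Type} [Field L] [Algebra ℂ L]

/-- the multiplicities -/
noncomputable def muQ (F : Fin q → MvPolynomial (Fin (n + 1)) ℂ) (d : Fin q → ℕ)
    (x : Fin (n + 1) → L) (P : Place ℂ L) (k : Fin q) : ℕ :=
  (P.ord (aeval x (F k)) - d k * mo x P).toNat

/-- the logarithmic order -/
noncomputable def loQ (F : Fin q → MvPolynomial (Fin (n + 1)) ℂ) (d : Fin q → ℕ)
    (x : Fin (n + 1) → L) (P : Place ℂ L) (D : Fin n → Derivation ℂ L L) : ℤ :=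
  P.ord (Om x D) - (n + 1) * mo x P - ∑ k, (muQ F d x P k : ℤ)

variable {F : Fin q → MvPolynomial (Fin (n + 1)) ℂ} {d : Fin q → ℕ}
  {x : Fin (n + 1) → L} {P : Place ℂ L} {α : ℤ} {v : Fin q → ℕ}

theorem moQ_eq (h : DatQ P F d x α v) : mo x P = α := by
  obtain ⟨j, hj⟩ := h.ha2
  refine le_antisymm ?_ ?_
  · rw [← hj]
    exact Finset.inf'_le (fun l => P.ord (x l)) (Finset.mem_univ j)
  · exact Finset.le_inf' _ _ fun l _ => h.ha1 l

theorem muQ_eq (h : DatQ P F d x α v) : muQ F d x P = v := by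
  funext k
  unfold muQ
  rw [moQ_eq h, h.hv]
  omega

theorem loQ_ge (h : DatQ P F d x α v) (D : Fin n → Derivation ℂ L L) :
    Ge P (((n : ℤ) + 1) * α + ∑ k, (v k : ℤ)) (bw D x) ↔ Om x D = 0 ∨ 0 ≤ loQ F d x P D := by
  unfold loQ
  rw [moQ_eq h, muQ_eq h]
  change (Om x D = 0 ∨ _ ≤ P.ord (Om x D)) ↔ _
  refine or_congr Iff.rfl ?_
  constructor <;> intro h1 <;> linarith

theorem logCQ_of (hlc : ∀ P : Place ℂ L, Divisorial n P → ∀ D : Fin n → Derivation ℂ L L,
    (∀ c, DerLog P (D c)) → Om x D = 0 ∨ 0 ≤ loQ F d x P D) : LogCQ F d x := by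
  intro P hP α v hdat D hD
  rw [loQ_ge hdat]
  exact hlc P hP D hD

end dat

/-- **The final form.** -/
theorem final {n q R : ℕ} (hn : 1 ≤ n) {F : Fin q → MvPolynomial (Fin (n + 1)) ℂ} {d : Fin q → ℕ}
    (hF : ∀ k, (F k).IsHomogeneous (d k)) (hF0 : ∀ k, F k ≠ 0)
    (hlc : ∀ P : Place ℂ (Rf n), Divisorial n P →
      ∀ D : Fin n → Derivation ℂ (Rf n) (Rf n), (∀ c, DerLog P (D c)) →
      Om (gp n) D = 0 ∨ 0 ≤ loQ F d (gp n) P D)
    {m : Fin R → ℕ} (hm : ∀ j, 0 < m j) {a : Fin R → Fin q → ℕ}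
    {K : Type} [Field K] [Algebra ℂ K] {x : Fin (n + 1) → K} {z : Fin R → K}
    (hx0 : x 0 = 1) (hz : ∀ j, z j ^ m j = ∏ k, aeval x (F k) ^ a j k)
    (hgen : IntermediateField.adjoin ℂ (Set.range x ∪ Set.range z) = ⊤)
    (hdim : Algebra.trdeg ℂ K = n)
    (L : Type) [Field L] [Algebra ℂ L] [Algebra L K] [IsScalarTower ℂ L K]
    [FiniteDimensional L K] :
    (Big d m a x z (Module.finrank L K) →
      [GenusZero L n, ¬ KodGe ℂ L n (fun _ => False) 0, ¬ Psef ℂ L n (fun _ => False),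
        IsUniruled ℂ L n, Unir L n, FactorsThrough L x].TFAE) ∧
    (Big d m a x z (2 * Module.finrank L K) → (¬ GeneralType ℂ L n ↔ FactorsThrough L x)) := by
  obtain ⟨E, hE⟩ : ∃ E, E = IntermediateField.adjoin ℂ (Set.range x) := ⟨_, rfl⟩
  have hmem : ∀ P : MvPolynomial (Fin (n + 1)) ℂ, aeval x P ∈ E := by
    intro P
    rw [hE]
    apply IntermediateField.algebra_adjoin_le_adjoin ℂ
    rw [Algebra.adjoin_range_eq_range_aeval]
    exact ⟨P, rfl⟩
  have hzE : ∀ j, z j ^ m j ∈ E := fun j => by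
    rw [hz]
    exact prod_mem fun k _ => pow_mem (hmem _) _
  have hgenE : IntermediateField.adjoin E (Set.range z) = ⊤ := by
    have h1 := IntermediateField.adjoin_adjoin_left ℂ (Set.range x) (Set.range z)
    rw [hgen] at h1
    subst hE
    rw [eq_top_iff]
    intro y _
    have h2 : y ∈ (⊤ : IntermediateField ℂ K) := trivial
    rw [← h1] at h2
    exact h2
  have hfin : FiniteDimensional E K := by
    have h1 : FiniteDimensional E (IntermediateField.adjoin E (Set.range z)) :=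
      IntermediateField.finiteDimensional_adjoin (by
        rintro _ ⟨j, rfl⟩
        exact ⟨Polynomial.X ^ m j - Polynomial.C (⟨z j ^ m j, hzE j⟩ : E),
          Polynomial.monic_X_pow_sub_C _ (hm j).ne', by
          rw [Polynomial.eval₂_sub, Polynomial.eval₂_pow, Polynomial.eval₂_X, Polynomial.eval₂_C]
          exact sub_self _⟩)
    rw [hgenE] at h1
    exact Module.Finite.equiv (IntermediateField.topEquiv (F := E) (E := K)).toLinearEquiv
  have hadj : E = IntermediateField.adjoin ℂ (Set.range fun b : Fin n => x b.succ) := by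
    rw [hE]
    apply le_antisymm
    · rw [IntermediateField.adjoin_le_iff]
      rintro _ ⟨l, rfl⟩
      refine Fin.cases ?_ (fun b => ?_) l
      · change x 0 ∈ _
        rw [hx0]
        exact one_mem _
      · exact IntermediateField.subset_adjoin ℂ _ ⟨b, rfl⟩
    · apply IntermediateField.adjoin.mono
      rintro _ ⟨b, rfl⟩
      exact ⟨b.succ, rfl⟩
  have hbas : IsTranscendenceBasis ℂ fun b : Fin n => x b.succ := by
    have halg : ∀ τ : K, IsAlgebraic E τ := fun τ => (Algebra.IsIntegral.isIntegral τ).isAlgebraic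
    rw [hadj] at halg
    have h1 := Pool.Agent.W619.PQ.alg_adjoin halg
    exact Algebra.IsAlgebraic.isTranscendenceBasis_of_lift_le_trdeg_of_finite ℂ
      (fun i : Fin n => x i.succ) (by rw [hdim]; simp)
  have C : Abc F d m a x z := ⟨hF, hF0, logCQ_of hlc, hm, hx0, hbas, hz, hgen⟩
  exact C.images hn L

end Pool.Agent.K3h47.IM
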