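import Mathlib

/-!
Fields between a field and an extension generated by roots.
-/

set_option autoImplicit false
set_option linter.overlappingInstances false
set_option linter.unusedSectionVars false
set_option maxHeartbeats 400000

open Polynomial

namespace Pool.Agent.K3h47.IM

section

variable {K : Type} [Field K] [Algebra ℂ K] {R : ℕ}

/-- roots of unity are constants -/
theorem const_of_pow {w : K} {N : ℕ} (hN : 0 < N) (hw : w ^ N = 1) :
    ∃ c : ℂ, algebraMap ℂ K c = w := by
  have hint : IsIntegral ℂ w := ⟨X ^ N - 1, monic_X_pow_sub_C 1 hN.ne', by simp [hw]⟩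
  have h1 : (minpoly ℂ w).degree = 1 :=
    IsAlgClosed.degree_eq_one_of_irreducible ℂ (minpoly.irreducible hint)
  exact minpoly.mem_range_of_degree_eq_one ℂ w h1

/-- the extension is Galois -/
theorem kum_galois {F : IntermediateField ℂ K} {z : Fin R → K} {m : Fin R → ℕ}
    (hm : ∀ j, 0 < m j) (hz : ∀ j, z j ^ m j ∈ F)
    (hgen : IntermediateField.adjoin F (Set.range z) = ⊤) : IsGalois F K := by
  classical
  have hsp : ∀ j, (((X : F[X]) ^ m j - C (⟨z j ^ m j, hz j⟩ : F)).map (algebraMap F K)).Splits := by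
    intro j
    have hprim : IsPrimitiveRoot (algebraMap ℂ K (Complex.exp (2 * Real.pi * Complex.I / m j)))
        (m j) := (Complex.isPrimitiveRoot_exp (m j) (hm j).ne').map_of_injective
          (algebraMap ℂ K).injective
    rw [Polynomial.map_sub, Polynomial.map_pow, map_X, map_C]
    exact X_pow_sub_C_splits_of_isPrimitiveRoot hprim (α := z j) rfl
  have : IsSplittingField F K (∏ j, ((X : F[X]) ^ m j - C (⟨z j ^ m j, hz j⟩ : F))) := by
    constructor
    · rw [Polynomial.map_prod]
      exact Splits.prod fun j _ => hsp j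
    · rw [eq_top_iff]
      have hne : (∏ j, ((X : F[X]) ^ m j - C (⟨z j ^ m j, hz j⟩ : F))) ≠ 0 :=
        Finset.prod_ne_zero_iff.2 fun j _ => (monic_X_pow_sub_C _ (hm j).ne').ne_zero
      have hfin : ∀ y ∈ Set.range z, IsIntegral F y := by
        rintro _ ⟨j, rfl⟩
        exact ⟨X ^ m j - C (⟨z j ^ m j, hz j⟩ : F), monic_X_pow_sub_C _ (hm j).ne', by
          rw [eval₂_sub, eval₂_pow, eval₂_X, eval₂_C]
          exact sub_self _⟩
      have h1 : (⊤ : Subalgebra F K) = Algebra.adjoin F (Set.range z) := by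
        rw [← IntermediateField.adjoin_toSubalgebra_of_isAlgebraic
          (fun y hy => (hfin y hy).isAlgebraic), hgen, IntermediateField.top_toSubalgebra]
      rw [h1]
      refine Algebra.adjoin_mono ?_
      rintro _ ⟨j, rfl⟩
      rw [mem_rootSet]
      refine ⟨hne, ?_⟩
      rw [map_prod]
      refine Finset.prod_eq_zero (Finset.mem_univ j) ?_
      rw [map_sub, map_pow, aeval_X, aeval_C]
      exact sub_self _
  have hnorm : Normal F K := Normal.of_isSplittingField
    (∏ j, ((X : F[X]) ^ m j - C (⟨z j ^ m j, hz j⟩ : F)))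
  have : CharZero F := charZero_of_injective_algebraMap (algebraMap ℂ F).injective
  exact { }

/-- the trace of a root -/
theorem trace_root {F : IntermediateField ℂ K} [FiniteDimensional F K] [IsGalois F K] {w : K}
    {N : ℕ} (hN : 0 < N) (hw : w ^ N ∈ F) (hwF : w ∉ F) : Algebra.trace F K w = 0 := by
  have hw0 : w ≠ 0 := by
    rintro rfl
    exact hwF F.zero_mem
  have h1 : ∃ σ : K ≃ₐ[F] K, σ w ≠ w := by
    by_contra hcon
    push Not at hcon
    have h2 : w ∈ (⊥ : IntermediateField F K) :=
      (IsGalois.mem_bot_iff_fixed w).2 hcon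
    obtain ⟨f, hf⟩ := IntermediateField.mem_bot.1 h2
    apply hwF
    rw [← hf]
    exact f.2
  obtain ⟨σ, hσ⟩ := h1
  have h2 : (σ w / w) ^ N = 1 := by
    rw [div_pow, ← map_pow]
    have h3 : σ (w ^ N) = w ^ N := σ.commutes (⟨w ^ N, hw⟩ : F)
    rw [h3, div_self (pow_ne_zero _ hw0)]
  obtain ⟨c, hc⟩ := const_of_pow hN h2
  have hcw : σ w = (algebraMap ℂ F c) • w := by
    rw [Algebra.smul_def]
    have h4 : algebraMap F K (algebraMap ℂ F c) = algebraMap ℂ K c := rfl
    rw [h4, hc, div_mul_cancel₀ _ hw0]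
  have h5 : Algebra.trace F K (σ w) = Algebra.trace F K w := Algebra.trace_eq_of_algEquiv σ w
  rw [hcw, map_smul, smul_eq_mul] at h5
  by_contra hne
  have h6 : algebraMap ℂ F c = 1 := by
    have h7 : (algebraMap ℂ F c - 1) * Algebra.trace F K w = 0 := by
      rw [sub_mul, one_mul, h5, sub_self]
    rcases mul_eq_zero.1 h7 with h8 | h8
    · exact sub_eq_zero.1 h8
    · exact absurd h8 hne
  apply hσ
  rw [hcw, h6, one_smul]

/-- **The fields between.** -/
theorem exists_mono {E F : IntermediateField ℂ K} (hEF : E < F) {z : Fin R → K} {m : Fin R → ℕ}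
    (hm : ∀ j, 0 < m j) (hz : ∀ j, z j ^ m j ∈ E)
    (hgen : IntermediateField.adjoin E (Set.range z) = ⊤) :
    FiniteDimensional F K ∧ ∃ c : Fin R → ℕ, (∏ j, z j ^ c j) ∈ F ∧ (∏ j, z j ^ c j) ∉ E := by
  classical
  have hzF : ∀ j, z j ^ m j ∈ F := fun j => hEF.le (hz j)
  have hgen' : ∀ L : IntermediateField ℂ K, E ≤ L → (∀ j, z j ∈ L) → L = ⊤ := by
    intro L hEL hL
    rw [eq_top_iff]
    intro y _
    have hy : y ∈ IntermediateField.adjoin E (Set.range z) := by
      rw [hgen]
      trivial
    have h1 : IntermediateField.adjoin E (Set.range z) ≤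
        IntermediateField.extendScalars hEL := by
      rw [IntermediateField.adjoin_le_iff]
      rintro _ ⟨j, rfl⟩
      exact hL j
    exact h1 hy
  have hgenF : IntermediateField.adjoin F (Set.range z) = ⊤ := by
    have h1 := hgen' ((IntermediateField.adjoin F (Set.range z)).restrictScalars ℂ)
      (fun y hy => (IntermediateField.adjoin F (Set.range z)).algebraMap_mem
        (⟨y, hEF.le hy⟩ : F))
      (fun j => IntermediateField.subset_adjoin F _ ⟨j, rfl⟩)
    rw [eq_top_iff]
    intro y _
    have h2 : y ∈ (IntermediateField.adjoin F (Set.range z)).restrictScalars ℂ := by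
      rw [h1]
      trivial
    exact h2
  have hfin : FiniteDimensional F K := by
    have h1 : FiniteDimensional F (IntermediateField.adjoin F (Set.range z)) :=
      IntermediateField.finiteDimensional_adjoin (by
        rintro _ ⟨j, rfl⟩
        exact ⟨X ^ m j - C (⟨z j ^ m j, hzF j⟩ : F), monic_X_pow_sub_C _ (hm j).ne', by
          rw [eval₂_sub, eval₂_pow, eval₂_X, eval₂_C]
          exact sub_self _⟩)
    rw [hgenF] at h1
    exact Module.Finite.equiv (IntermediateField.topEquiv (F := F) (E := K)).toLinearEquiv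
  refine ⟨hfin, ?_⟩
  have := kum_galois hm hzF hgenF
  obtain ⟨f, hfF, hfE⟩ := SetLike.exists_of_lt hEF
  -- the expansion
  have hint : ∀ y ∈ Set.range z, IsIntegral E y := by
    rintro _ ⟨j, rfl⟩
    exact ⟨X ^ m j - C (⟨z j ^ m j, hz j⟩ : E), monic_X_pow_sub_C _ (hm j).ne', by
      rw [eval₂_sub, eval₂_pow, eval₂_X, eval₂_C]
      exact sub_self _⟩
  have h1 : (⊤ : Subalgebra E K) = Algebra.adjoin E (Set.range z) := by
    rw [← IntermediateField.adjoin_toSubalgebra_of_isAlgebraic
      (fun y hy => (hint y hy).isAlgebraic), hgen, IntermediateField.top_toSubalgebra]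
  obtain ⟨p, hp⟩ : ∃ p : MvPolynomial (Fin R) E, MvPolynomial.aeval z p = f := by
    have h2 : f ∈ Algebra.adjoin E (Set.range z) := by
      rw [← h1]
      trivial
    rw [Algebra.adjoin_range_eq_range_aeval] at h2
    exact h2
  have hexp : f = ∑ c ∈ p.support, algebraMap E K (p.coeff c) * ∏ j, z j ^ c j := by
    rw [← hp, MvPolynomial.aeval_def, MvPolynomial.eval₂_eq']
  by_contra hcon
  push Not at hcon
  -- the trace
  have hN : 0 < ∏ j, m j := Finset.prod_pos fun j _ => hm j
  have hmon : ∀ c : Fin R →₀ ℕ, (∏ j, z j ^ c j) ^ (∏ j, m j) ∈ F := by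
    intro c
    rw [← Finset.prod_pow]
    refine prod_mem fun j _ => ?_
    rw [← Finset.mul_prod_erase Finset.univ m (Finset.mem_univ j), ← pow_mul,
      show c j * (m j * ∏ i ∈ Finset.univ.erase j, m i) =
        m j * (c j * ∏ i ∈ Finset.univ.erase j, m i) by ring, pow_mul]
    exact pow_mem (hzF j) _
  have hr : (Module.finrank F K : K) ≠ 0 := by
    have : CharZero K := charZero_of_injective_algebraMap (algebraMap ℂ K).injective
    exact_mod_cast Module.finrank_pos.ne'
  have htr1 : ∀ y ∈ F, ((Algebra.trace F K y : F) : K) = Module.finrank F K * y := by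
    intro y hy
    have h2 : Algebra.trace F K (algebraMap F K ⟨y, hy⟩) = Module.finrank F K • (⟨y, hy⟩ : F) :=
      Algebra.trace_algebraMap _
    have h3 : algebraMap F K ⟨y, hy⟩ = y := rfl
    rw [h3] at h2
    rw [h2, nsmul_eq_mul]
    push_cast
    rfl
  have htr2 : ((Algebra.trace F K f : F) : K) = ∑ c ∈ p.support, algebraMap E K (p.coeff c) *
      ((Algebra.trace F K (∏ j, z j ^ c j) : F) : K) := by
    have h2 : ∀ c, Algebra.trace F K (algebraMap E K (p.coeff c) * ∏ j, z j ^ c j) =
        (⟨algebraMap E K (p.coeff c), hEF.le (p.coeff c).2⟩ : F) *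
          Algebra.trace F K (∏ j, z j ^ c j) := by
      intro c
      have h3 : algebraMap E K (p.coeff c) * ∏ j, z j ^ c j =
          (⟨algebraMap E K (p.coeff c), hEF.le (p.coeff c).2⟩ : F) • ∏ j, z j ^ c j := by
        rw [Algebra.smul_def]
        rfl
      rw [h3, map_smul, smul_eq_mul]
    rw [hexp, map_sum]
    push_cast
    refine Finset.sum_congr rfl fun c _ => ?_
    rw [h2 c]
    rfl
  rw [htr1 f hfF] at htr2
  apply hfE
  have h4 : f = ∑ c ∈ p.support, algebraMap E K (p.coeff c) *
      (((Algebra.trace F K (∏ j, z j ^ c j) : F) : K) / Module.finrank F K) := by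
    have h5 : f = (Module.finrank F K * f) / Module.finrank F K := by
      field_simp
    rw [h5, htr2, Finset.sum_div]
    exact Finset.sum_congr rfl fun c _ => by rw [mul_div_assoc]
  rw [h4]
  refine sum_mem fun c _ => ?_
  refine mul_mem (p.coeff c).2 ?_
  by_cases hc : (∏ j, z j ^ c j) ∈ F
  · rw [htr1 _ hc, mul_div_cancel_left₀ _ hr]
    exact hcon c hc
  · rw [trace_root hN (hmon c) hc]
    simp

end

end Pool.Agent.K3h47.IM
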