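import Pool.Agent.K3h47.NC.Fin

/-!
Log canonical divisors on the projective space with any number of components, and finite covers.
-/

set_option autoImplicit false
set_option linter.overlappingInstances false
set_option linter.unusedSectionVars false
set_option maxHeartbeats 400000

open FF MvPolynomial Pool.Agent.W603.LV Pool.Agent.W602.GT Pool.Agent.W602.Cov
open Pool.Agent.W602.Cov.G Pool.Agent.TH152.AC Pool.Agent.TH122.AB Pool.Agent.Y169.CH
open Pool.Agent.TH756.PN Pool.Agent.W619.PQ Pool.Agent.W619.TW Pool.Agent.W619.Y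
open Pool.Agent.K3h47.NC

namespace Pool.Agent.K3h47.IM

section

variable {n : ℕ} {ι : Type} [Fintype ι] {K : Type} [Field K] [Algebra ℂ K]

/-- the orders of the coordinates and the multiplicities -/
structure DatQ (P : Place ℂ K) (F : ι → MvPolynomial (Fin (n + 1)) ℂ) (dF : ι → ℕ)
    (x : Fin (n + 1) → K) (α : ℤ) (v : ι → ℕ) : Prop where
  hx : ∀ l, x l ≠ 0
  ha1 : ∀ l, α ≤ P.ord (x l)
  ha2 : ∃ j, P.ord (x j) = α
  hFx : ∀ k, aeval x (F k) ≠ 0
  hv : ∀ k, P.ord (aeval x (F k)) = dF k * α + v k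

/-- the pair is log canonical -/
def LogCQ (F : ι → MvPolynomial (Fin (n + 1)) ℂ) (dF : ι → ℕ) (x : Fin (n + 1) → K) : Prop :=
  ∀ P : Place ℂ K, Divisorial n P → ∀ (α : ℤ) (v : ι → ℕ), DatQ P F dF x α v →
    ∀ D : Fin n → Derivation ℂ K K, (∀ l z, P.Reg (D l z / z)) →
      Ge P (((n : ℤ) + 1) * α + ∑ k, (v k : ℤ)) (bw D x)

/-- the order on regular vector fields -/
theorem lc_regQ {F : ι → MvPolynomial (Fin (n + 1)) ℂ} {dF : ι → ℕ}
    {x : Fin (n + 1) → K} (hlc : LogCQ F dF x) (htr : Algebra.trdeg ℂ K = n)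
    (hfd : ∀ y : Fin n → K, IsTranscendenceBasis ℂ y →
      FiniteDimensional (IntermediateField.adjoin ℂ (Set.range y)) K)
    {P : Place ℂ K} (hP : Divisorial n P) {α : ℤ} {v : ι → ℕ}
    (h : DatQ P F dF x α v) {D : Fin n → Derivation ℂ K K} (hD : ∀ l, DerReg P (D l)) :
    Ge P (((n : ℤ) + 1) * α + ∑ k, (v k : ℤ) - 1) (bw D x) := by
  classical
  obtain ⟨y, E, i0, dd, hy, hEy, hi0, hyreg, hE, hdd, hbw⟩ := exists_lframe htr hfd hP
  have hpi : y i0 ≠ 0 := by
    intro h0
    rw [h0, P.ord_zero] at hi0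
    omega
  have h1 := hlc P hP α v h dd hdd
  rw [hbw] at h1
  have h2 : Ge P (((n : ℤ) + 1) * α + ∑ k, (v k : ℤ) - 1) (bw E x) := by
    rcases h1 with h1 | h1
    · exact Or.inl ((mul_eq_zero.1 h1).resolve_left hpi)
    · by_cases h0 : bw E x = 0
      · exact Or.inl h0
      · right
        rw [P.ord_mul hpi h0, hi0] at h1
        linarith
  have hDE : D = fun i => ∑ j, (Matrix.of fun i j => D i (y j)) i j • E j := by
    funext i
    apply der_ext' hy
    intro j
    rw [sum_der, Finset.sum_eq_single j]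
    · rw [hEy, if_pos rfl, mul_one]
      rfl
    · intro b _ hb
      rw [hEy, if_neg hb, mul_zero]
    · intro hj
      exact absurd (Finset.mem_univ _) hj
  have h3 : Ge P 0 (Matrix.of fun i j => D i (y j)).det :=
    Pool.Agent.W619.PQ.ge_det P _ fun i j => hD i _ (hyreg j)
  rw [hDE, (bwa n K).2.1]
  simpa using h3.mul h2

/-- the form has no pole -/
theorem bw_reg {x : Fin (n + 1) → K} (hx : ∀ l, x l ≠ 0) {P : Place ℂ K} {α : ℤ}
    (ha1 : ∀ l, α ≤ P.ord (x l)) (ha2 : ∃ j, P.ord (x j) = α)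
    {D : Fin n → Derivation ℂ K K} (hD : ∀ l, DerReg P (D l)) :
    Ge P (((n : ℤ) + 1) * α) (bw D x) := by
  classical
  obtain ⟨j, hj⟩ := ha2
  obtain ⟨y, hy⟩ : ∃ y : Fin (n + 1) → K, y = fun l => x l / x j := ⟨_, rfl⟩
  have hyreg : ∀ b, P.Reg (y b) := by
    intro b
    right
    rw [hy]
    dsimp only
    rw [P.ord_div (hx b) (hx j), hj]
    linarith [ha1 b]
  have h1 : Ge P 0 (bw D y) := by
    refine Pool.Agent.W619.PQ.ge_det P _ fun i b => ?_
    refine Fin.cases ?_ (fun l => ?_) i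
    · exact hyreg b
    · exact hD l _ (hyreg b)
  have h2 : bw D x = x j ^ (n + 1) * bw D y := by
    rw [← (bwa n K).1 D (x j) y]
    congr 1
    funext l
    rw [hy, mul_div_cancel₀ _ (hx j)]
  rw [h2]
  have h3 : Ge P (((n : ℤ) + 1) * α) (x j ^ (n + 1)) := by
    right
    rw [P.ord_pow, hj]
    push_cast
    exact le_rfl
  refine (h3.mul h1).mono (le_of_eq ?_)
  simp

/-- the data -/
theorem exists_datQ {F : ι → MvPolynomial (Fin (n + 1)) ℂ} {dF : ι → ℕ}
    (hh : ∀ k, (F k).IsHomogeneous (dF k)) {x : Fin (n + 1) → K} (hx : ∀ l, x l ≠ 0)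
    (hFx : ∀ k, aeval x (F k) ≠ 0) (P : Place ℂ K) : ∃ α v, DatQ P F dF x α v := by
  obtain ⟨l, hl⟩ := Finite.exists_min fun l => P.ord (x l)
  have hne := hx l
  obtain ⟨y, hy⟩ : ∃ y : Fin (n + 1) → K, y = fun b => x b / x l := ⟨_, rfl⟩
  have hyr : ∀ b, P.Reg (y b) := by
    intro b
    right
    rw [hy]
    dsimp only
    rw [P.ord_div (hx b) hne]
    linarith [hl b]
  have hF : ∀ k, aeval x (F k) = x l ^ dF k * aeval y (F k) := by
    intro k
    rw [← aeval_smul_form (hh k)]
    congr 2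
    funext b
    rw [hy, mul_div_cancel₀ _ hne]
  have hFy : ∀ k, aeval y (F k) ≠ 0 := by
    intro k h0
    apply hFx k
    rw [hF, h0, mul_zero]
  refine ⟨P.ord (x l), fun k => (P.ord (aeval y (F k))).toNat, hx, hl, ⟨l, rfl⟩,
    hFx, fun k => ?_⟩
  have h1 := (reg_aeval hyr (F k)).resolve_left (hFy k)
  rw [Int.toNat_of_nonneg h1, hF, P.ord_mul (pow_ne_zero _ hne) (hFy k), P.ord_pow]

end

section up

variable {n : ℕ} {ι : Type} [Fintype ι] {K0 K : Type} [Field K0] [Field K] [Algebra ℂ K0]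
  [Algebra ℂ K] [Algebra K0 K] [IsScalarTower ℂ K0 K]

/-- **A finite cover of a log canonical pair is log canonical.** -/
theorem logCQ_up [FiniteDimensional K0 K] {F : ι → MvPolynomial (Fin (n + 1)) ℂ}
    {dF : ι → ℕ} {X : Fin (n + 1) → K0} (hlc : LogCQ F dF X)
    (htr : Algebra.trdeg ℂ K0 = n)
    (hfd : ∀ y : Fin n → K0, IsTranscendenceBasis ℂ y →
      FiniteDimensional (IntermediateField.adjoin ℂ (Set.range y)) K0) :
    LogCQ F dF fun j => algebraMap K0 K (X j) := by
  classical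
  intro P hP α v hdat D hD
  obtain ⟨e, Q, hPQ⟩ := Pool.Agent.W73.PG.PULL.exists_over' (K := K0) P
  have hQ : Divisorial n Q := pDIVI ℂ K0 K n Q P e hPQ hP
  have he : (1 : ℤ) ≤ e := by exact_mod_cast hPQ.1
  have hF : ∀ k, aeval (fun j => algebraMap K0 K (X j)) (F k) = algebraMap K0 K (aeval X (F k)) :=
    fun k => MvPolynomial.aeval_algebraMap_apply K X (F k)
  obtain ⟨j0, hj0⟩ := hdat.ha2
  obtain ⟨α0, hα0⟩ : ∃ α0, α0 = Q.ord (X j0) := ⟨_, rfl⟩
  have hαe : α = e * α0 := by rw [← hj0, hPQ.2, hα0]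
  have hv0 : ∀ k, (v k : ℤ) = e * (Q.ord (aeval X (F k)) - dF k * α0) := by
    intro k
    have h1 := hdat.hv k
    rw [hF, hPQ.2, hαe] at h1
    linarith
  have hnn : ∀ k, 0 ≤ Q.ord (aeval X (F k)) - dF k * α0 := by
    intro k
    have h1 := hv0 k
    have h2 : (0 : ℤ) ≤ v k := by positivity
    by_contra hneg
    push Not at hneg
    nlinarith
  have hdatQ : DatQ Q F dF X α0 fun k => (Q.ord (aeval X (F k)) - dF k * α0).toNat := by
    refine ⟨fun l h0 => ?_, fun l => ?_, ⟨j0, hα0.symm⟩, fun k h0 => ?_, fun k => ?_⟩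
    · apply hdat.hx l
      rw [h0, map_zero]
    · have h1 := hdat.ha1 l
      rw [hPQ.2, hαe] at h1
      by_contra hneg
      push Not at hneg
      nlinarith
    · apply hdat.hFx k
      rw [hF, h0, map_zero]
    · rw [Int.toNat_of_nonneg (hnn k)]
      ring
  obtain ⟨y, E, i0, dd, hy, hEy, hi0, hyreg, hE, hdd, hbw⟩ := exists_lframe htr hfd hQ
  have hpi : y i0 ≠ 0 := by
    intro h0
    rw [h0, Q.ord_zero] at hi0
    omega
  have hy0 : ∀ c, algebraMap K0 K (y c) ≠ 0 := by
    intro c h0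
    have h1 := hEy c c
    rw [if_pos rfl] at h1
    have h2 : y c = 0 := by simpa using h0
    rw [h2, map_zero] at h1
    exact zero_ne_one h1
  have h1 := hlc Q hQ _ _ hdatQ dd hdd
  rw [hbw] at h1
  have hsum : (e : ℤ) * (((n : ℤ) + 1) * α0 +
      ∑ k, (((Q.ord (aeval X (F k)) - dF k * α0).toNat : ℕ) : ℤ)) =
      ((n : ℤ) + 1) * α + ∑ k, (v k : ℤ) := by
    rw [mul_add, Finset.mul_sum, hαe]
    congr 1
    · ring
    · exact Finset.sum_congr rfl fun k _ => by rw [Int.toNat_of_nonneg (hnn k), hv0 k]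
  -- the determinant
  have hge : Ge P e (Matrix.of fun a c => D a (algebraMap K0 K (y c))).det := by
    have h2 : (Matrix.of fun a c => D a (algebraMap K0 K (y c))).det =
        (∏ c, algebraMap K0 K (y c)) * (Matrix.of fun a c => D a (algebraMap K0 K (y c)) /
          algebraMap K0 K (y c)).det := by
      rw [← Matrix.det_mul_row]
      congr 1
      ext a c
      simp only [Matrix.of_apply]
      rw [mul_div_cancel₀ _ (hy0 c)]
    rw [h2]
    have h3 : Ge P 0 (Matrix.of fun a c => D a (algebraMap K0 K (y c)) /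
        algebraMap K0 K (y c)).det := Pool.Agent.W619.PQ.ge_det P _ fun a c => hD a _
    have h4 : Ge P e (∏ c, algebraMap K0 K (y c)) := by
      rw [← Finset.mul_prod_erase Finset.univ _ (Finset.mem_univ i0)]
      have h5 : Ge P 0 (∏ c ∈ Finset.univ.erase i0, algebraMap K0 K (y c)) := by
        refine Finset.prod_induction _ (fun z => Ge P 0 z) (fun a b ha hb => ?_) Ge.one
          fun c _ => hPQ.reg.2 (hyreg c)
        simpa using ha.mul hb
      have h6 : Ge P e (algebraMap K0 K (y i0)) := by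
        right
        rw [hPQ.2, hi0, mul_one]
      simpa using h6.mul h5
    simpa using h4.mul h3
  rw [bw_up hy hEy]
  rcases h1 with h1 | h1
  · have h2 : bw E X = 0 := (mul_eq_zero.1 h1).resolve_left hpi
    left
    rw [h2, map_zero, mul_zero]
  · by_cases h0 : bw E X = 0
    · left
      rw [h0, map_zero, mul_zero]
    · have h2 : Ge P (e * (((n : ℤ) + 1) * α0 +
          ∑ k, (((Q.ord (aeval X (F k)) - dF k * α0).toNat : ℕ) : ℤ) - 1))
          (algebraMap K0 K (bw E X)) := by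
        right
        rw [hPQ.2]
        rw [Q.ord_mul hpi h0, hi0] at h1
        exact mul_le_mul_of_nonneg_left (by linarith) (by positivity)
      refine (hge.mul h2).mono (le_of_eq ?_)
      rw [← hsum]
      ring

end up

section gen

variable {n : ℕ} {ι : Type} [Fintype ι] {K : Type} [Field K] [Algebra ℂ K]

/-- **The generic point.** -/
theorem logCQ_gen {F : ι → MvPolynomial (Fin (n + 1)) ℂ} {dF : ι → ℕ}
    (hlc : LogCQ F dF (gp n)) {x : Fin (n + 1) → K}
    (hx0 : x 0 = 1) (hbas : IsTranscendenceBasis ℂ fun b : Fin n => x b.succ)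
    (hfd : FiniteDimensional
      (IntermediateField.adjoin ℂ (Set.range fun b : Fin n => x b.succ)) K) :
    LogCQ F dF x := by
  classical
  have hinj : Function.Injective
      (aeval (fun b : Fin n => x b.succ) : MvPolynomial (Fin n) ℂ →ₐ[ℂ] K) := hbas.1
  obtain ⟨φ, hφ⟩ : ∃ φ : Rf n →ₐ[ℂ] K, ∀ b : Fin n, φ (gp n b.succ) = x b.succ := by
    refine ⟨IsFractionRing.liftAlgHom hinj, fun b => ?_⟩
    rw [gp_succ, IsFractionRing.liftAlgHom_apply, IsFractionRing.lift_algebraMap]
    exact aeval_X _ _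
  letI : Algebra (Rf n) K := φ.toRingHom.toAlgebra
  have hmap : ∀ z, algebraMap (Rf n) K z = φ z := fun z => rfl
  haveI : IsScalarTower ℂ (Rf n) K := IsScalarTower.of_algebraMap_eq fun c => (φ.commutes c).symm
  haveI : FiniteDimensional (Rf n) K := by
    obtain ⟨E, hE⟩ : ∃ E, E = IntermediateField.adjoin ℂ
      (Set.range fun b : Fin n => x b.succ) := ⟨_, rfl⟩
    rw [← hE] at hfd
    obtain ⟨S, hS⟩ := (Module.finite_def.1 hfd : (⊤ : Submodule E K).FG)
    have hEφ : E ≤ φ.fieldRange := by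
      rw [hE, IntermediateField.adjoin_le_iff]
      rintro _ ⟨b, rfl⟩
      exact ⟨_, hφ b⟩
    refine Module.finite_def.2 ⟨S, ?_⟩
    rw [eq_top_iff]
    intro z _
    have hz : z ∈ Submodule.span E (S : Set K) := by
      rw [hS]
      trivial
    induction hz using Submodule.span_induction with
    | mem x hx => exact Submodule.subset_span hx
    | zero => exact Submodule.zero_mem _
    | add x y _ _ hx hy => exact Submodule.add_mem _ (hx trivial) (hy trivial)
    | smul a x _ hx =>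
      obtain ⟨a', ha'⟩ := hEφ a.2
      have h1 : a • x = a' • x := by
        rw [Algebra.smul_def, Algebra.smul_def]
        congr 1
        exact ha'.symm
      rw [h1]
      exact Submodule.smul_mem _ _ (hx trivial)
  have h1 := logCQ_up (K := K) hlc (gp_tr n) (gp_fin n)
  have h2 : (fun j => algebraMap (Rf n) K (gp n j)) = x := by
    funext l
    rw [hmap]
    refine Fin.cases ?_ (fun b => ?_) l
    · rw [gp_zero, map_one, hx0]
    · rw [hφ]
  rwa [h2] at h1

end gen

end Pool.Agent.K3h47.IM
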