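import Pool.Agent.K3h47.IM.Sec
import Pool.Agent.R882.COver

/-!
Images of abelian covers of the projective space.
-/

set_option autoImplicit false
set_option linter.overlappingInstances false
set_option linter.unusedSectionVars false
set_option maxHeartbeats 400000

open FF MvPolynomial Pool.Agent.W602.GT
open Pool.Agent.W602.Cov.G
open Pool.Agent.W619.PQ (IsUniruled)
open Pool.Agent.R882.Over Pool.Agent.K3h47.NC
open Pool.Agent.TH152.AC Pool.Agent.TH122.AB

namespace Pool.Agent.K3h47.IM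

section

variable {n q R : ℕ} {K : Type} [Field K] [Algebra ℂ K]
variable {F : Fin q → MvPolynomial (Fin (n + 1)) ℂ} {d : Fin q → ℕ} {m : Fin R → ℕ}
  {a : Fin R → Fin q → ℕ} {x : Fin (n + 1) → K} {z : Fin R → K}

/-- the degree condition -/
def Big (d : Fin q → ℕ) (m : Fin R → ℕ) (a : Fin R → Fin q → ℕ) (x : Fin (n + 1) → K)
    (z : Fin R → K) (s : ℕ) : Prop :=
  ∀ c : Fin R → ℕ, (∏ j, z j ^ c j) ∉ IntermediateField.adjoin ℂ (Set.range x) →
    ∃ t : ℕ, (∏ j, z j ^ (t * c j)) ∉ IntermediateField.adjoin ℂ (Set.range x) ∧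
      (n + s : ℚ) ≤ dg d m a fun j => t * c j

theorem Abc.detects (C : Abc F d m a x z) {F' : IntermediateField ℂ K}
    (hEF : IntermediateField.adjoin ℂ (Set.range x) < F') {c : Fin R → ℕ}
    (hc : (∏ j, z j ^ c j) ∈ F') {s : ℕ} (hdeg : (n : ℚ) + 1 + s ≤ dg d m a c) :
    Detects n x F' s := by
  classical
  obtain ⟨hfin, -⟩ := exists_mono hEF C.hm C.z_mem C.gen_E
  have hxF : ∀ l, x l ∈ F' := fun l => hEF.le (IntermediateField.subset_adjoin ℂ _ ⟨l, rfl⟩)
  obtain ⟨y, hy⟩ : ∃ y : Fin n → F', y = fun b => ⟨x b.succ, hxF _⟩ := ⟨_, rfl⟩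
  have hyK : ∀ b, algebraMap F' K (y b) = x b.succ := fun b => by
    rw [hy]
    rfl
  have htr : Algebra.trdeg ℂ F' = n := Pool.Agent.Y184.NT.trdeg_below (K := K) C.tr
  have hind : AlgebraicIndependent ℂ y := by
    apply AlgebraicIndependent.of_comp F'.val
    have h1 : (F'.val ∘ y) = fun b : Fin n => x b.succ := funext hyK
    rw [h1]
    exact C.hbas.1
  have hybas : IsTranscendenceBasis ℂ y :=
    hind.isTranscendenceBasis_of_trdeg_le_of_finite (by rw [htr]; simp)
  obtain ⟨D, hD⟩ := Pool.Agent.W636.PG.exists_duals ℂ F' n y hybas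
  choose D' hD' using fun i => Pool.Agent.Y172.exists_lift (k := ℂ) (K := F') (L := K) htr (D i)
  have hdual : ∀ i j, D' i (x j.succ) = if i = j then 1 else 0 := by
    intro i j
    have h1 := Pool.Agent.Y172.lift_dual hD hD' i j
    rwa [hyK] at h1
  have hbw : bw D' x = 1 := by
    rw [Pool.Agent.W930.CG.bw_one D' x C.hx0]
    have h1 : (Matrix.of fun i j => D' i (x j.succ)) = (1 : Matrix (Fin n) (Fin n) K) := by
      ext i j
      rw [Matrix.of_apply, hdual, Matrix.one_apply]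
    rw [h1, Matrix.det_one]
  refine ⟨fun D => (∏ j, z j ^ c j) * (∏ k, aeval x (F k) ^ (-⌈ex m a c k⌉)) * bw D x, ?_,
    fun f P hP => C.reg hdeg f hP, D, D', hD', ?_⟩
  · intro A D
    dsimp only
    rw [(bwa n K).2.1 A D x, pow_one]
    ring
  · dsimp only
    rw [hbw, mul_one]
    have hw : (∏ j, z j ^ c j) * (∏ k, aeval x (F k) ^ (-⌈ex m a c k⌉)) ∈ F' := by
      refine mul_mem hc (prod_mem fun k _ => zpow_mem ?_ _)
      exact hEF.le (C.ae_mem _)
    have hw0 : (∏ j, z j ^ c j) * (∏ k, aeval x (F k) ^ (-⌈ex m a c k⌉)) ≠ 0 :=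
      mul_ne_zero (Finset.prod_ne_zero_iff.2 fun j _ => pow_ne_zero _ (C.z_ne j))
        (Finset.prod_ne_zero_iff.2 fun k _ => zpow_ne_zero _ (C.F_ne k))
    have h1 : Algebra.trace F' K (algebraMap F' K ⟨_, hw⟩) =
        Module.finrank F' K • (⟨_, hw⟩ : F') := Algebra.trace_algebraMap _
    have h2 : algebraMap F' K ⟨_, hw⟩ =
      (∏ j, z j ^ c j) * (∏ k, aeval x (F k) ^ (-⌈ex m a c k⌉)) := rfl
    rw [h2] at h1
    rw [h1, nsmul_eq_mul]
    have : CharZero F' := charZero_of_injective_algebraMap (algebraMap ℂ F').injective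
    refine mul_ne_zero ?_ ?_
    · exact_mod_cast Module.finrank_pos.ne'
    · intro h3
      exact hw0 (congrArg Subtype.val h3)

theorem Abc.positive (C : Abc F d m a x z) {s : ℕ} (hs : 1 ≤ s) (hB : Big d m a x z s) :
    Positive n x s := by
  intro F' hF'
  obtain ⟨hfin, c, hcF, hcE⟩ := exists_mono hF' C.hm C.z_mem C.gen_E
  obtain ⟨t, htE, hdeg⟩ := hB c hcE
  refine ⟨s - 1, ?_, C.detects hF' (c := fun j => t * c j) ?_ ?_⟩
  · have h1 : 1 ≤ Module.finrank F' K := Module.finrank_pos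
    rw [Nat.sub_add_cancel hs]
    exact Nat.le_mul_of_pos_left _ h1
  · have h1 : (∏ j, z j ^ (t * c j)) = (∏ j, z j ^ c j) ^ t := by
      rw [← Finset.prod_pow]
      exact Finset.prod_congr rfl fun j _ => by rw [mul_comm, pow_mul]
    rw [h1]
    exact pow_mem hcF _
  · have h1 : ((s - 1 : ℕ) : ℚ) = s - 1 := by
      rw [Nat.cast_sub hs, Nat.cast_one]
    rw [h1]
    linarith

theorem Abc.base (C : Abc F d m a x z) : IsBase n x := by
  classical
  refine ⟨?_, C.tr, ⟨0, C.hx0⟩, C.fin_E⟩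
  rw [← IntermediateField.fg_top_iff, ← C.hgen]
  exact ⟨Finset.univ.image x ∪ Finset.univ.image z, by
    rw [Finset.coe_union, Finset.coe_image, Finset.coe_image, Finset.coe_univ, Finset.coe_univ,
      Set.image_univ, Set.image_univ]⟩

/-- unirational -/
def Unir (L : Type) [Field L] [Algebra ℂ L] (n : ℕ) : Prop :=
  Nonempty (L →ₐ[ℂ] FractionRing (MvPolynomial (Fin n) ℂ))

theorem Abc.unir (C : Abc F d m a x z) (L : Type) [Field L] [Algebra ℂ L] [Algebra L K]
    [IsScalarTower ℂ L K] (h : FactorsThrough L x) : Unir L n := by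
  have hE := C.adj
  let e := C.hbas.1.aevalEquivField
  let φ : L →ₐ[ℂ] IntermediateField.adjoin ℂ (Set.range fun i : Fin n => x i.succ) :=
    { toFun := fun f => ⟨algebraMap L K f, by
        rw [← hE]
        exact h f⟩
      map_one' := Subtype.ext (map_one _)
      map_mul' := fun f g => Subtype.ext (map_mul _ _ _)
      map_zero' := Subtype.ext (map_zero _)
      map_add' := fun f g => Subtype.ext (map_add _ _ _)
      commutes' := fun c => Subtype.ext (IsScalarTower.algebraMap_apply ℂ L K c).symm }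
  exact ⟨(e.symm : _ →ₐ[ℂ] FractionRing (MvPolynomial (Fin n) ℂ)).comp φ⟩

theorem uni_of_unir (hn : 1 ≤ n) {L : Type} [Field L] [Algebra ℂ L] (h : Unir L n) :
    IsUniruled ℂ L n := by
  obtain ⟨φ⟩ := h
  obtain ⟨M, i1, i2, hM, htr, ⟨ψ⟩⟩ := Pool.Agent.Y184.NT.uniruled_of_rational hn
    (f := fun b : Fin n => gp n b.succ) (gp_bas n).1 (gp_top n)
  exact ⟨M, i1, i2, hM, htr, ⟨ψ.comp φ⟩⟩

theorem Abc.uniE (hn : 1 ≤ n) (C : Abc F d m a x z) :
    IsUniruled ℂ (IntermediateField.adjoin ℂ (Set.range x)) n := by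
  refine uni_of_unir hn (C.unir (IntermediateField.adjoin ℂ (Set.range x)) fun f => f.2)

/-- **The images.** -/
theorem Abc.images (hn : 1 ≤ n) (C : Abc F d m a x z) (L : Type) [Field L] [Algebra ℂ L]
    [Algebra L K] [IsScalarTower ℂ L K] [FiniteDimensional L K] :
    (Big d m a x z (Module.finrank L K) →
      [GenusZero L n, ¬ KodGe ℂ L n (fun _ => False) 0, ¬ Psef ℂ L n (fun _ => False),
        IsUniruled ℂ L n, Unir L n, FactorsThrough L x].TFAE) ∧
    (Big d m a x z (2 * Module.finrank L K) → (¬ GeneralType ℂ L n ↔ FactorsThrough L x)) := by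
  obtain ⟨h1, h2⟩ := over_uniruled hn C.base (C.uniE hn) L
  have h0 : 1 ≤ Module.finrank L K := Module.finrank_pos
  refine ⟨fun hB => ?_, fun hB => h2 (C.positive (by omega) hB)⟩
  have h3 := h1 (C.positive h0 hB)
  have h4 : GenusZero L n ↔ FactorsThrough L x := h3.out 0 4
  have h5 : GenusZero L n ↔ ¬ KodGe ℂ L n (fun _ => False) 0 := h3.out 0 1
  have h6 : GenusZero L n ↔ ¬ Psef ℂ L n (fun _ => False) := h3.out 0 2
  have h7 : GenusZero L n ↔ IsUniruled ℂ L n := h3.out 0 3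
  tfae_have 1 ↔ 2 := h5
  tfae_have 1 ↔ 3 := h6
  tfae_have 1 ↔ 4 := h7
  tfae_have 1 ↔ 6 := h4
  tfae_have 6 → 5 := fun h => C.unir L h
  tfae_have 5 → 4 := fun h => uni_of_unir hn h
  tfae_finish

end

end Pool.Agent.K3h47.IM
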