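import Pool.Agent.K3h47.IM.Lc
import Pool.Agent.K3h47.IM.Kum

/-!
Canonical forms on abelian covers of the projective space.
-/

set_option autoImplicit false
set_option linter.overlappingInstances false
set_option linter.unusedSectionVars false
set_option maxHeartbeats 400000

open FF MvPolynomial Pool.Agent.W603.LV Pool.Agent.W602.GT Pool.Agent.W602.Cov
open Pool.Agent.W602.Cov.G Pool.Agent.TH152.AC Pool.Agent.TH122.AB Pool.Agent.Y169.CH
open Pool.Agent.TH756.PN Pool.Agent.W619.PQ Pool.Agent.W619.TW Pool.Agent.W619.Y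
open Pool.Agent.K3h47.NC

namespace Pool.Agent.K3h47.IM

section

variable {n q R : ℕ} {K : Type} [Field K] [Algebra ℂ K]

/-- an abelian cover of the projective space which is branched along a log canonical divisor -/
structure Abc (F : Fin q → MvPolynomial (Fin (n + 1)) ℂ) (d : Fin q → ℕ) (m : Fin R → ℕ)
    (a : Fin R → Fin q → ℕ) (x : Fin (n + 1) → K) (z : Fin R → K) : Prop where
  hh : ∀ k, (F k).IsHomogeneous (d k)
  hF0 : ∀ k, F k ≠ 0
  hlc : LogCQ F d (gp n)
  hm : ∀ j, 0 < m j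
  hx0 : x 0 = 1
  hbas : IsTranscendenceBasis ℂ fun b : Fin n => x b.succ
  hz : ∀ j, z j ^ m j = ∏ k, aeval x (F k) ^ a j k
  hgen : IntermediateField.adjoin ℂ (Set.range x ∪ Set.range z) = ⊤

/-- the exponents -/
def ex (m : Fin R → ℕ) (a : Fin R → Fin q → ℕ) (c : Fin R → ℕ) (k : Fin q) : ℚ :=
  ∑ j, (c j : ℚ) * a j k / m j

/-- the degree -/
def dg (d : Fin q → ℕ) (m : Fin R → ℕ) (a : Fin R → Fin q → ℕ) (c : Fin R → ℕ) : ℚ :=
  ∑ k, (d k : ℚ) * Int.fract (-ex m a c k)

namespace Abc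

variable {F : Fin q → MvPolynomial (Fin (n + 1)) ℂ} {d : Fin q → ℕ} {m : Fin R → ℕ}
  {a : Fin R → Fin q → ℕ} {x : Fin (n + 1) → K} {z : Fin R → K} (C : Abc F d m a x z)

include C

theorem x_ne (l : Fin (n + 1)) : x l ≠ 0 := by
  refine Fin.cases ?_ (fun b => ?_) l
  · rw [C.hx0]
    exact one_ne_zero
  · exact C.hbas.1.ne_zero b

theorem F_ne (k : Fin q) : aeval x (F k) ≠ 0 := by
  rw [← Pool.Agent.Y169.TH.aeval_deh C.hx0]
  intro h
  exact Pool.Agent.Y169.TH.deh_ne (C.hh k) (C.hF0 k)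
    ((injective_iff_map_eq_zero _).1 C.hbas.1 _ h)

theorem z_ne (j : Fin R) : z j ≠ 0 := by
  intro h
  have h1 := C.hz j
  rw [h, zero_pow (C.hm j).ne'] at h1
  exact Finset.prod_ne_zero_iff.2 (fun k _ => pow_ne_zero _ (C.F_ne k)) h1.symm

theorem adj : IntermediateField.adjoin ℂ (Set.range x) =
    IntermediateField.adjoin ℂ (Set.range fun b : Fin n => x b.succ) := by
  apply le_antisymm
  · rw [IntermediateField.adjoin_le_iff]
    rintro _ ⟨l, rfl⟩
    refine Fin.cases ?_ (fun b => ?_) l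
    · change x 0 ∈ _
      rw [C.hx0]
      exact one_mem _
    · exact IntermediateField.subset_adjoin ℂ _ ⟨b, rfl⟩
  · apply IntermediateField.adjoin.mono
    rintro _ ⟨b, rfl⟩
    exact ⟨b.succ, rfl⟩

theorem ae_mem (P : MvPolynomial (Fin (n + 1)) ℂ) :
    aeval x P ∈ IntermediateField.adjoin ℂ (Set.range x) := by
  apply IntermediateField.algebra_adjoin_le_adjoin ℂ
  rw [Algebra.adjoin_range_eq_range_aeval]
  exact ⟨P, rfl⟩

theorem z_mem (j : Fin R) : z j ^ m j ∈ IntermediateField.adjoin ℂ (Set.range x) := by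
  rw [C.hz]
  exact prod_mem fun k _ => pow_mem (C.ae_mem _) _

theorem gen_E : IntermediateField.adjoin (IntermediateField.adjoin ℂ (Set.range x))
    (Set.range z) = ⊤ := by
  have h1 := IntermediateField.adjoin_adjoin_left ℂ (Set.range x) (Set.range z)
  rw [C.hgen] at h1
  rw [eq_top_iff]
  intro y _
  have h2 : y ∈ (⊤ : IntermediateField ℂ K) := trivial
  rw [← h1] at h2
  exact h2

theorem fin_E : FiniteDimensional (IntermediateField.adjoin ℂ (Set.range x)) K := by
  obtain ⟨E, hE⟩ : ∃ E, E = IntermediateField.adjoin ℂ (Set.range x) := ⟨_, rfl⟩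
  have h0 := C.gen_E
  have hz := C.z_mem
  rw [← hE] at h0 hz ⊢
  have h1 : FiniteDimensional E (IntermediateField.adjoin E (Set.range z)) :=
    IntermediateField.finiteDimensional_adjoin (by
      rintro _ ⟨j, rfl⟩
      exact ⟨Polynomial.X ^ m j - Polynomial.C (⟨z j ^ m j, hz j⟩ : E),
        Polynomial.monic_X_pow_sub_C _ (C.hm j).ne', by
        rw [Polynomial.eval₂_sub, Polynomial.eval₂_pow, Polynomial.eval₂_X, Polynomial.eval₂_C]
        exact sub_self _⟩)
  rw [h0] at h1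
  exact Module.Finite.equiv (IntermediateField.topEquiv (F := E) (E := K)).toLinearEquiv

theorem fin_all (y : Fin n → K) (hy : IsTranscendenceBasis ℂ y) :
    FiniteDimensional (IntermediateField.adjoin ℂ (Set.range y)) K := by
  refine Pool.Agent.TH756.PN.fin_all (Z := fun b : Fin n => x b.succ) ?_ hy
  rw [← C.adj]
  exact C.fin_E

theorem tr : Algebra.trdeg ℂ K = n := trdeg_of_basis C.hbas

theorem lc : LogCQ F d x := by
  refine logCQ_gen C.hlc C.hx0 C.hbas ?_
  rw [← C.adj]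
  exact C.fin_E

theorem ord_z {P : Place ℂ K} {α : ℤ} {v : Fin q → ℕ} (h : DatQ P F d x α v) (j : Fin R) :
    (P.ord (z j) : ℚ) = ∑ k, (a j k : ℚ) / m j * (d k * α + v k) := by
  have h1 := congrArg P.ord (C.hz j)
  rw [P.ord_pow, ord_prod' P Finset.univ _ fun k _ => pow_ne_zero _ (C.F_ne k)] at h1
  have h2 : (m j : ℚ) * P.ord (z j) = ∑ k, (a j k : ℚ) * (d k * α + v k) := by
    have h3 : (m j : ℤ) * P.ord (z j) = ∑ k, (a j k : ℤ) * (d k * α + v k) := by
      rw [h1]
      exact Finset.sum_congr rfl fun k _ => by rw [P.ord_pow, h.hv]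
    exact_mod_cast h3
  have h3 : (m j : ℚ) ≠ 0 := by
    have := (C.hm j).ne'
    exact_mod_cast this
  have h4 : (P.ord (z j) : ℚ) = (m j * P.ord (z j)) / m j := by field_simp
  rw [h4, h2, Finset.sum_div]
  exact Finset.sum_congr rfl fun k _ => by ring

theorem ord_zc {P : Place ℂ K} {α : ℤ} {v : Fin q → ℕ} (h : DatQ P F d x α v) (c : Fin R → ℕ) :
    (P.ord (∏ j, z j ^ c j) : ℚ) = ∑ k, ex m a c k * (d k * α + v k) := by
  rw [ord_prod' P Finset.univ _ fun j _ => pow_ne_zero _ (C.z_ne j)]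
  push_cast
  have h1 : ∀ j, ((P.ord (z j ^ c j) : ℤ) : ℚ) =
      ∑ k, (c j : ℚ) * a j k / m j * (d k * α + v k) := by
    intro j
    rw [P.ord_pow]
    push_cast
    rw [C.ord_z h, Finset.mul_sum]
    exact Finset.sum_congr rfl fun k _ => by ring
  rw [Finset.sum_congr rfl fun j _ => h1 j, Finset.sum_comm]
  refine Finset.sum_congr rfl fun k _ => ?_
  rw [← Finset.sum_mul]
  rfl

/-- **The canonical forms.** -/
theorem reg {c : Fin R → ℕ} {s : ℕ} (hdeg : (n : ℚ) + 1 + s ≤ dg d m a c) (f : Fin s → Fin (n + 1))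
    {P : Place ℂ K} (hP : Divisorial n P) :
    RegAt P (fun D : Fin n → Derivation ℂ K K => (∏ k, x (f k)) *
      ((∏ j, z j ^ c j) * (∏ k, aeval x (F k) ^ (-⌈ex m a c k⌉)) * bw D x)) := by
  classical
  intro D hD
  obtain ⟨α, v, h⟩ := exists_datQ C.hh C.x_ne C.F_ne P
  have hα : α ≤ 0 := by
    have h1 := h.ha1 0
    rwa [C.hx0, P.ord_one] at h1
  have h1 : Ge P (s * α) (∏ k, x (f k)) := by
    right
    rw [ord_prod' P Finset.univ _ fun k _ => C.x_ne _]
    calc (s : ℤ) * α = ∑ _k : Fin s, α := by simp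
      _ ≤ _ := Finset.sum_le_sum fun k _ => h.ha1 _
  have h2 : Ge P (P.ord (∏ j, z j ^ c j)) (∏ j, z j ^ c j) := Or.inr le_rfl
  have h3 : Ge P (∑ k, -⌈ex m a c k⌉ * (d k * α + v k))
      (∏ k, aeval x (F k) ^ (-⌈ex m a c k⌉)) := by
    right
    rw [ord_prod' P Finset.univ _ fun k _ => zpow_ne_zero _ (C.F_ne k)]
    exact le_of_eq (Finset.sum_congr rfl fun k _ => by rw [P.ord_zpow, h.hv])
  have h4 : Ge P (((n : ℤ) + 1) * α + ∑ k, (v k : ℤ) - (if v = 0 then 0 else 1)) (bw D x) := by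
    by_cases hv : v = 0
    · rw [if_pos hv, hv]
      have h5 := bw_reg C.x_ne h.ha1 h.ha2 hD
      simpa using h5
    · rw [if_neg hv]
      exact lc_regQ C.lc C.tr C.fin_all hP h hD
  have h5 := h1.mul ((h2.mul h3).mul h4)
  have hkey : (0 : ℤ) ≤ s * α + (P.ord (∏ j, z j ^ c j) + ∑ k, -⌈ex m a c k⌉ * (d k * α + v k) +
      (((n : ℤ) + 1) * α + ∑ k, (v k : ℤ) - (if v = 0 then 0 else 1))) := by
    have h6 : ((s * α + (P.ord (∏ j, z j ^ c j) + ∑ k, -⌈ex m a c k⌉ * (d k * α + v k) +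
        (((n : ℤ) + 1) * α + ∑ k, (v k : ℤ) - (if v = 0 then 0 else 1))) : ℤ) : ℚ) =
        (-α) * (dg d m a c - (n + 1 + s)) + (∑ k, (v k : ℚ) * (1 - Int.fract (-ex m a c k)) -
          (if v = 0 then 0 else 1)) := by
      push_cast
      rw [C.ord_zc h]
      have hf : ∀ k, Int.fract (-ex m a c k) = (⌈ex m a c k⌉ : ℚ) - ex m a c k := by
        intro k
        rw [Int.fract, Int.floor_neg]
        push_cast
        ring
      have h7 : ∑ k, ex m a c k * (d k * (α : ℚ) + v k) + ∑ k, -(⌈ex m a c k⌉ : ℚ) *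
          (d k * α + v k) + ∑ k, (v k : ℚ) = -α * dg d m a c +
            ∑ k, (v k : ℚ) * (1 - Int.fract (-ex m a c k)) := by
        rw [dg, Finset.mul_sum, ← Finset.sum_add_distrib, ← Finset.sum_add_distrib,
          ← Finset.sum_add_distrib]
        refine Finset.sum_congr rfl fun k _ => ?_
        rw [hf]
        ring
      linear_combination h7
    have h8 : (0 : ℚ) ≤ (-α) * (dg d m a c - (n + 1 + s)) := by
      refine mul_nonneg ?_ (by linarith)
      have : (α : ℚ) ≤ 0 := by exact_mod_cast hα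
      linarith
    have h9 : (-1 : ℚ) < ∑ k, (v k : ℚ) * (1 - Int.fract (-ex m a c k)) -
        (if v = 0 then 0 else 1) := by
      have h10 : ∀ k, 0 < 1 - Int.fract (-ex m a c k) := fun k => by
        linarith [Int.fract_lt_one (-ex m a c k)]
      by_cases hv : v = 0
      · rw [if_pos hv, hv]
        simp
      · rw [if_neg hv]
        have h11 : (0 : ℚ) < ∑ k, (v k : ℚ) * (1 - Int.fract (-ex m a c k)) := by
          obtain ⟨k, hk⟩ : ∃ k, v k ≠ 0 := by
            by_contra hcon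
            push Not at hcon
            exact hv (funext hcon)
          refine Finset.sum_pos' (fun i _ => mul_nonneg (by positivity) (h10 i).le)
            ⟨k, Finset.mem_univ k, mul_pos ?_ (h10 k)⟩
          have : 0 < v k := Nat.pos_of_ne_zero hk
          exact_mod_cast this
        linarith
    have h12 : (-1 : ℚ) < ((s * α + (P.ord (∏ j, z j ^ c j) +
        ∑ k, -⌈ex m a c k⌉ * (d k * α + v k) +
        (((n : ℤ) + 1) * α + ∑ k, (v k : ℤ) - (if v = 0 then 0 else 1))) : ℤ) : ℚ) := by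
      rw [h6]
      linarith
    have h13 : (-1 : ℤ) < s * α + (P.ord (∏ j, z j ^ c j) +
        ∑ k, -⌈ex m a c k⌉ * (d k * α + v k) +
        (((n : ℤ) + 1) * α + ∑ k, (v k : ℤ) - (if v = 0 then 0 else 1))) := by
      exact_mod_cast h12
    omega
  exact h5.mono hkey

end Abc

end

end Pool.Agent.K3h47.IM
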